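import Mathlib
import Pool.Agent.N502.TM.Fin2
import Pool.Agent.N169.TM_GAU
import Pool.Agent.N199.TM_TOP
import Pool.Agent.N322.TM_CMB
import Pool.Agent.N296.TM_ABL
import Pool.Agent.N271.TM_HIL
import Pool.Agent.N284.TM_DEN
import Pool.Agent.N386.TM_PLS
import Pool.Agent.N454.TM_POL
import Pool.Agent.N865.TM_CMP
import Pool.Agent.N391.TM_PCV
import Pool.Agent.N861.TM_BAL
import Pool.Agent.N457.TM_KER
import Pool.Agent.N344.TM_SUM
import Pool.Agent.N814.TM_HAR
import Pool.Agent.N346.TM_INV
import Pool.Agent.N75.TM_QWW
import Pool.Agent.N619.TM_CSQ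
import Pool.Agent.N386.TM_EQB
import Pool.Agent.N492.TM_CHN
import Pool.Agent.N499.TM_PRJ

/-!
# The optimal constant in the volume bound by harmonic means of projections is one

For all `1 ≤ i < n` the smallest constant `c(n, i)` such that
`κ_n ^ ((n - i) / n) * vol(E) ^ (i / n) ≤ c (κ_n / κ_i) M_{-1}(v_{i,E})` for all Borel sets
`E ⊆ ℝ^n` is `1`. Here `M_{-1}(v_{i,E})` is the harmonic mean of the `i`-dimensional volumes of the
orthogonal projections of `E` to the `i`-dimensional subspaces, with respect to the rotation
invariant probability measure, which is the image of the invariant probability measure of the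
orthogonal group under the map of `g` to the span of its first `i` columns. In the statement the
projection to this subspace is written in the orthonormal basis of these columns (`cor`); by
`Pool.Agent.N502.TM.vcor_eq` and `Pool.Agent.N499.TM.PRJ.main` its volume is the volume of the image
of `E` under the orthogonal projection of Mathlib to the subspace.

Proof. Codimension one: for a probability density `f` on a compact set `K` of `ℝ^(m+1)` the
Cauchy-Schwarz inequality gives `1 / vol_m (K | θ^⊥) ≤ ∫ (line integral of f)²`, and the mean of the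
right hand side is a multiple of the energy of `f` for the kernel `|x - y| ^ (-m)`. The infimum of
the energies is greatest for balls: this is proved for the operators
`(1 - b H)^(-1/2) = ∑ binom(2k, k) 4^(-k) b^k H^k`, `H` a heat operator, whose inverse is one minus
a combination of heat operators with positive coefficients, by polarization. The density
`(r² - |x|²)^(-1/2)` of the ball has constant line integrals, so equality holds for balls.
All codimensions: project to dimension `i + 1`, use the case of codimension one there, Jensen's
inequality and induction.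
-/

set_option autoImplicit false

namespace Pool.Agent.Results.MP_6f559f_gt.HarmonicProjections

open MeasureTheory Pool.Agent.N502.TM

theorem result (n i : ℕ) (hi : 1 ≤ i) (hin : i < n) (μ : Measure (O n))
    (hμ : IsProbabilityMeasure μ) (hμl : μ.IsMulLeftInvariant) :
    IsLeast {c : ENNReal | ∀ E : Set (V n), MeasurableSet E → Ineq hin.le μ c E} 1 := by
  have hG : S_GAU := Pool.Agent.N169.TMGAU.main
  have hTop : S_TOP := Pool.Agent.N199.TMTOP.main
  have hCMB : S_CMB := Pool.Agent.N322.TM_CMB.main
  have hAbl : S_ABL := Pool.Agent.N296.TMABL.main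
  have hHil : S_HIL := Pool.Agent.N271.TMHIL.main
  have hDen : S_DEN := Pool.Agent.N284.TM_DEN.main
  have hPls : S_PLS := Pool.Agent.N386.TM_PLS.main
  have hPol : S_POL := Pool.Agent.N454.TMPOL.main
  have hCmp : S_CMP := Pool.Agent.N865.TM_CMP.main
  have hPcv : S_PCV := Pool.Agent.N391.TM.main
  have hBal : S_BAL := Pool.Agent.N861.TM_BAL.main
  have hKer : S_KER := Pool.Agent.N457.TMK.main
  have hSum : S_SUM := Pool.Agent.N344.TM.main
  have hHar : S_HAR := Pool.Agent.N814.TM_HAR.main
  have hInv : S_INV := Pool.Agent.N346.TM.main
  have hQww : S_QWW := Pool.Agent.N75.TM_QWW.main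
  have hCsq : S_CSQ := Pool.Agent.N619.TM_CSQ.main
  have hEqb : S_EQB := Pool.Agent.N386.TM_EQB.main
  have hPrj : S_PRJ := Pool.Agent.N499.TM.PRJ.main
  have hChn : S_CHN := Pool.Agent.N492.TM_CHN.main
  exact goal2 hPrj (goal_of hPrj (hChn hHar hInv (cod hG hTop hCMB hBal hCmp hHil hDen hPls hPol
    hPcv hAbl hSum hKer hInv hQww hCsq hEqb))) hi hin μ hμ hμl

end Pool.Agent.Results.MP_6f559f_gt.HarmonicProjections
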